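import Pool.Agent.Helper30.PJ.Eig

/-!
# Project PJ (MP_9a4587_an): the couplings of four copies, and convergence
-/

set_option autoImplicit false
set_option linter.unusedSectionVars false

namespace Pool.Agent.Helper30.PJ

open MeasureTheory Filter Topology
open Pool.Agent.Helper57.SS

section
variable {α : Type} [MeasurableSpace α]

/-- The properties of the limit couplings. -/
structure FC (K : (α → ℝ) → (α → ℝ) → Prop) (μ : Measure α) (T S : α ≃ᵐ α)
    (ρ : Measure (Fin 4 → α)) : Prop where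
  prob : IsProbabilityMeasure ρ
  inv : ∀ R : α ≃ᵐ α, MeasurePreserving (⇑R) μ μ → (∀ x, T (R x) = R (T x)) →
    (∀ x, S (R x) = R (S x)) → ρ.map (fun x i => R (x i)) = ρ
  three : ∀ A : Fin 4 → Set α, (∀ i, MeasurableSet (A i)) → (∃ i, A i = Set.univ) →
    ρ (Set.univ.pi A) = ∏ i, μ (A i)
  eig : ∀ (χ : Fin 4 → α → ℂ) (c d : Fin 4 → ℂ), (∀ i, Bc (χ i)) →
    (∀ i x, χ i (T x) = c i * χ i x ∧ χ i (S x) = d i * χ i x) →
    ∫ x, ∏ i, χ i (x i) ∂ρ = ∏ i, ∫ x, χ i x ∂μ
  sing : ∀ u : Fin 4 → α → ℝ, (∀ i, Bd (u i)) → (K (u 0) (u 2) ∨ K (u 1) (u 3)) →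
    ∫ x, ∏ i, u i (x i) ∂ρ = ∏ i, ∫ x, u i x ∂μ

/-- The couplings determine the fourth correlation. -/
def Det (K : (α → ℝ) → (α → ℝ) → Prop) (μ : Measure α) (T S : α ≃ᵐ α) (f g : α → ℝ) : Prop :=
  ∀ ρ : Measure (Fin 4 → α), FC K μ T S ρ →
    ∫ x, f (x 0) * f (x 1) * (g (x 2) * g (x 3)) ∂ρ = (∫ x, f x ∂μ) ^ 2 * (∫ x, g x ∂μ) ^ 2

theorem bc_of_bd {u : α → ℝ} (hu : Bd u) : Bc (fun x => ((u x : ℝ) : ℂ)) :=
  ⟨Complex.measurable_ofReal.comp hu.1, 1, fun x => by
    rw [Complex.norm_real, Real.norm_eq_abs]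
    exact hu.2 x⟩

theorem bd_ind {A : Set α} (hA : MeasurableSet A) : Bd (A.indicator fun _ => (1 : ℝ)) :=
  ⟨measurable_const.indicator hA, fun x => by
    by_cases h : x ∈ A
    · simp [h]
    · simp [h]⟩

theorem prod_ind (A : Fin 4 → Set α) (x : Fin 4 → α) :
    ∏ i, (A i).indicator (fun _ => (1 : ℝ)) (x i) =
      (Set.univ.pi A).indicator (fun _ => (1 : ℝ)) x := by
  by_cases h : x ∈ Set.univ.pi A
  · rw [Set.indicator_of_mem h]
    refine Finset.prod_eq_one fun i _ => ?_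
    rw [Set.indicator_of_mem (h i (Set.mem_univ i))]
  · rw [Set.indicator_of_notMem h]
    rw [Set.mem_univ_pi] at h
    push Not at h
    obtain ⟨i, hi⟩ := h
    exact Finset.prod_eq_zero (Finset.mem_univ i) (Set.indicator_of_notMem hi _)

theorem int_ind (ρ : Measure (Fin 4 → α)) {A : Fin 4 → Set α} (hA : ∀ i, MeasurableSet (A i)) :
    ∫ x, ∏ i, (A i).indicator (fun _ => (1 : ℝ)) (x i) ∂ρ = ρ.real (Set.univ.pi A) := by
  simp_rw [prod_ind]
  rw [integral_indicator (MeasurableSet.univ_pi hA)]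
  simp

theorem int_ind' (ρ : Measure (Fin 4 → α)) {A : Fin 4 → Set α} (hA : ∀ i, MeasurableSet (A i)) :
    ∫ x, ∏ i, (((A i).indicator (fun _ => (1 : ℝ)) (x i) : ℝ) : ℂ) ∂ρ =
      ((ρ.real (Set.univ.pi A) : ℝ) : ℂ) := by
  rw [← int_ind ρ hA, ← integral_complex_ofReal]
  refine integral_congr_ae (Eventually.of_forall fun x => ?_)
  show _ = _
  push_cast
  rfl

/-- complex and real convergence -/
theorem lim_real {r : ℕ → ℝ} {s : ℝ} {F : Filter ℕ}
    (h : Tendsto (fun n => ((r n : ℝ) : ℂ)) F (𝓝 (s : ℂ))) : Tendsto r F (𝓝 s) := by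
  have := (Complex.continuous_re.tendsto (s : ℂ)).comp h
  simpa [Function.comp_def] using this

theorem ext_box {ρ ρ' : Measure (Fin 4 → α)} [IsFiniteMeasure ρ]
    (h : ∀ A : Fin 4 → Set α, (∀ i, MeasurableSet (A i)) →
      ρ (Set.univ.pi A) = ρ' (Set.univ.pi A)) : ρ = ρ' := by
  refine ext_of_generate_finite _ generateFrom_pi.symm isPiSystem_pi ?_ ?_
  · rintro _ ⟨A, hA, rfl⟩
    exact h A fun i => hA i (Set.mem_univ i)
  · have := h (fun _ => Set.univ) fun _ => MeasurableSet.univ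
    rwa [Set.pi_univ] at this

variable {μ : Measure α} [IsProbabilityMeasure μ] {T S : α ≃ᵐ α} {a b : ℕ → ℕ}

/-- The limit coupling. -/
theorem exists_coupling [StandardBorelSpace α] (K : (α → ℝ) → (α → ℝ) → Prop)
    (hW : Wp a b) (hT : Ergodic (⇑T) μ) (hS : Ergodic (⇑S) μ) (hTS : ∀ x, T (S x) = S (T x))
    (hK : ∀ f g, Bd f → Bd g → K f g → Conv μ T S a b f g)
    (U : Ultrafilter ℕ) (hU : (U : Filter ℕ) ≤ atTop) :
    ∃ ρ : Measure (Fin 4 → α), FC K μ T S ρ ∧ ∀ u : Fin 4 → α → ℝ, (∀ i, Bd (u i)) →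
      Tendsto (fun n => ∫ x, Av T S a b (u 0) (u 2) (n + 1) x *
        Av T S a b (u 1) (u 3) (n + 1) x ∂μ) U (𝓝 (∫ x, ∏ i, u i (x i) ∂ρ)) := by
  have hTm := hT.toMeasurePreserving
  have hSm := hS.toMeasurePreserving
  have hadd : Tendsto (fun n : ℕ => n + 1) U atTop := (tendsto_add_atTop_nat 1).mono_left hU
  obtain ⟨ρ, hp, hm, hl⟩ := exists_lim μ (fun n => rho μ T S a b (n + 1))
    (fun n => rho_prob (Nat.succ_pos n)) (fun n i => rho_marg hTm hSm (Nat.succ_pos n) i) U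
  have hreal : ∀ u : Fin 4 → α → ℝ, (∀ i, Bd (u i)) →
      Tendsto (fun n => ∫ x, Av T S a b (u 0) (u 2) (n + 1) x *
        Av T S a b (u 1) (u 3) (n + 1) x ∂μ) U (𝓝 (∫ x, ∏ i, u i (x i) ∂ρ)) := by
    intro u hu
    have h1 := hl (fun i x => ((u i x : ℝ) : ℂ)) (fun i => bc_of_bd (hu i))
    apply lim_real
    have h2 : ((∫ x, ∏ i, u i (x i) ∂ρ : ℝ) : ℂ) = ∫ x, ∏ i, ((u i (x i) : ℝ) : ℂ) ∂ρ := by
      rw [← integral_complex_ofReal]
      refine integral_congr_ae (Eventually.of_forall fun x => ?_)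
      show _ = _
      push_cast
      rfl
    rw [h2]
    refine h1.congr fun n => ?_
    exact rho_real hu (n + 1)
  have hbox : ∀ A : Fin 4 → Set α, (∀ i, MeasurableSet (A i)) →
      Tendsto (fun n => (rho μ T S a b (n + 1)).real (Set.univ.pi A)) U
        (𝓝 (ρ.real (Set.univ.pi A))) := by
    intro A hA
    have h1 := hl (fun i x => (((A i).indicator (fun _ => (1 : ℝ)) x : ℝ) : ℂ))
      (fun i => bc_of_bd (bd_ind (hA i)))
    apply lim_real
    simp_rw [← int_ind' _ hA]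
    exact h1
  have hprod : ∀ u : Fin 4 → α → ℝ, (∀ i, Bd (u i)) →
      Tendsto (fun N => ∫ x, Av T S a b (u 0) (u 2) N x * Av T S a b (u 1) (u 3) N x ∂μ) atTop
        (𝓝 (∏ i, ∫ x, u i x ∂μ)) → ∫ x, ∏ i, u i (x i) ∂ρ = ∏ i, ∫ x, u i x ∂μ := by
    intro u hu h
    exact tendsto_nhds_unique (hreal u hu) (h.comp hadd)
  refine ⟨ρ, ⟨hp, ?_, ?_, ?_, ?_⟩, hreal⟩
  · intro R hR hRT hRS
    have hmR : Measurable fun (x : Fin 4 → α) (i : Fin 4) => R (x i) :=
      measurable_pi_lambda _ fun i => R.measurable.comp (measurable_pi_apply i)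
    have : IsProbabilityMeasure (ρ.map fun (x : Fin 4 → α) (i : Fin 4) => R (x i)) :=
      Measure.isProbabilityMeasure_map hmR.aemeasurable
    refine ext_box fun A hA => ?_
    have hA' : ∀ i, MeasurableSet (R ⁻¹' A i) := fun i => R.measurable (hA i)
    have hpre : (fun (x : Fin 4 → α) (i : Fin 4) => R (x i)) ⁻¹' (Set.univ.pi A) =
        Set.univ.pi fun i => R ⁻¹' A i := by
      ext x
      simp
    rw [Measure.map_apply hmR (MeasurableSet.univ_pi hA), hpre]
    have h1 := hbox A hA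
    have h2 := hbox _ hA'
    have h3 : ∀ n, (rho μ T S a b (n + 1)).real (Set.univ.pi fun i => R ⁻¹' A i) =
        (rho μ T S a b (n + 1)).real (Set.univ.pi A) := by
      intro n
      unfold Measure.real
      congr 1
      conv_rhs => rw [← rho_inv hR hRT hRS (n + 1)]
      rw [Measure.map_apply hmR (MeasurableSet.univ_pi hA), hpre]
    simp_rw [h3] at h2
    have h4 := tendsto_nhds_unique h2 h1
    exact (measureReal_eq_measureReal_iff).1 h4
  · intro A hA hi
    have hu : ∀ i, Bd ((A i).indicator fun _ => (1 : ℝ)) := fun i => bd_ind (hA i)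
    have h1 := hprod (fun i => (A i).indicator fun _ => (1 : ℝ)) hu
      (three_lim hW hT hS hTS hu (by
        obtain ⟨i, hi⟩ := hi
        exact ⟨i, by rw [hi, Set.indicator_univ]⟩))
    rw [int_ind ρ hA] at h1
    have h2 : ∀ i, ∫ x, (A i).indicator (fun _ => (1 : ℝ)) x ∂μ = μ.real (A i) := by
      intro i
      rw [integral_indicator (hA i)]
      simp
    simp_rw [h2] at h1
    rw [← ENNReal.toReal_eq_toReal_iff' (measure_ne_top _ _)
      (ENNReal.prod_ne_top fun i _ => measure_ne_top _ _), ENNReal.toReal_prod]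
    exact h1
  · intro χ c d hχ h
    exact tendsto_nhds_unique (hl χ hχ) ((eig_lim hW hT hS hχ h).comp hadd)
  · intro u hu h
    refine hprod u hu ?_
    rw [Fin.prod_univ_four]
    rcases h with h | h
    · have h1 := hK _ _ (hu 0) (hu 2) h
      have h2 := int_Av_lim hW hT hS hTS (hu 1) (hu 3)
      have := prod_lim (fun N => Av_bd (hu 0) (hu 2) N) (fun N => Av_bd (hu 1) (hu 3) N) h1 h2
      refine (this.congr fun N => ?_).trans (le_of_eq ?_)
      · exact integral_congr_ae (Eventually.of_forall fun x => mul_comm _ _)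
      · congr 1
        ring
    · have h1 := hK _ _ (hu 1) (hu 3) h
      have h2 := int_Av_lim hW hT hS hTS (hu 0) (hu 2)
      have := prod_lim (fun N => Av_bd (hu 1) (hu 3) N) (fun N => Av_bd (hu 0) (hu 2) N) h1 h2
      refine this.trans (le_of_eq ?_)
      congr 1
      ring

/-- Convergence when the couplings determine the correlation. -/
theorem conv_det [StandardBorelSpace α] (K : (α → ℝ) → (α → ℝ) → Prop)
    (hW : Wp a b) (hT : Ergodic (⇑T) μ) (hS : Ergodic (⇑S) μ) (hTS : ∀ x, T (S x) = S (T x))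
    (hK : ∀ f g, Bd f → Bd g → K f g → Conv μ T S a b f g)
    {f g : α → ℝ} (hf : Bd f) (hg : Bd g) (h : Det K μ T S f g) : Conv μ T S a b f g := by
  refine conv_of_var hT.toMeasurePreserving hS.toMeasurePreserving hf hg ?_
    (int_Av_lim hW hT hS hTS hf hg)
  rw [← tendsto_add_atTop_iff_nat 1, tendsto_iff_ultrafilter]
  intro U hU
  obtain ⟨ρ, hρ, hl⟩ := exists_coupling K hW hT hS hTS hK U hU
  have h1 := hl ![f, f, g, g] (by
    intro i
    fin_cases i
    · exact hf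
    · exact hf
    · exact hg
    · exact hg)
  have h2 : ∫ x, ∏ i, (![f, f, g, g] : Fin 4 → α → ℝ) i (x i) ∂ρ =
      ((∫ x, f x ∂μ) * ∫ x, g x ∂μ) ^ 2 := by
    rw [mul_pow, ← h ρ hρ]
    refine integral_congr_ae (Eventually.of_forall fun x => ?_)
    show ∏ i, (![f, f, g, g] : Fin 4 → α → ℝ) i (x i) = f (x 0) * f (x 1) * (g (x 2) * g (x 3))
    rw [Fin.prod_univ_four]
    show f (x 0) * f (x 1) * g (x 2) * g (x 3) = _
    ring
  rw [h2] at h1
  refine h1.congr fun n => ?_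
  refine integral_congr_ae (Eventually.of_forall fun x => ?_)
  show Av T S a b f g (n + 1) x * Av T S a b f g (n + 1) x = _
  ring

theorem FC.marg {K : (α → ℝ) → (α → ℝ) → Prop} {ρ : Measure (Fin 4 → α)} (h : FC K μ T S ρ)
    (i : Fin 4) : ρ.map (fun x => x i) = μ := by
  classical
  ext s hs
  rw [Measure.map_apply (measurable_pi_apply i) hs]
  have h1 := h.three (Function.update (fun _ => Set.univ) i s) (by
    intro j
    by_cases hj : j = i
    · subst hj; simpa using hs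
    · rw [Function.update_of_ne hj]; exact MeasurableSet.univ) (by
    obtain ⟨j, hj⟩ : ∃ j : Fin 4, j ≠ i := exists_ne i
    exact ⟨j, by rw [Function.update_of_ne hj]⟩)
  have h2 : Set.univ.pi (Function.update (fun _ : Fin 4 => (Set.univ : Set α)) i s) =
      (fun x : Fin 4 → α => x i) ⁻¹' s := by
    ext x
    simp only [Set.mem_univ_pi, Set.mem_preimage]
    constructor
    · intro h3
      have := h3 i
      rwa [Function.update_self] at this
    · intro h3 j
      by_cases hj : j = i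
      · subst hj; rwa [Function.update_self]
      · rw [Function.update_of_ne hj]; exact Set.mem_univ _
  rw [h2] at h1
  rw [h1, ← Finset.mul_prod_erase _ _ (Finset.mem_univ i), Function.update_self,
    Finset.prod_eq_one, mul_one]
  intro j hj
  rw [Function.update_of_ne (Finset.ne_of_mem_erase hj), measure_univ]

theorem Det.scale {K : (α → ℝ) → (α → ℝ) → Prop} {f f' g g' : α → ℝ} {c d : ℝ} (hc : 0 < c)
    (hd : 0 < d) (hf : f =ᵐ[μ] fun x => c * f' x) (hg : g =ᵐ[μ] fun x => d * g' x)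
    (h : Det K μ T S f g) : Det K μ T S f' g' := by
  intro ρ hρ
  have h1 := h ρ hρ
  have hae : ∀ {u v : α → ℝ}, u =ᵐ[μ] v → ∀ i : Fin 4, (fun x : Fin 4 → α => u (x i)) =ᵐ[ρ]
      fun x => v (x i) := by
    intro u v huv i
    have h2 : u =ᵐ[ρ.map (fun x => x i)] v := by rw [hρ.marg i]; exact huv
    exact ae_of_ae_map (measurable_pi_apply i).aemeasurable h2
  have h3 : ∫ x, f (x 0) * f (x 1) * (g (x 2) * g (x 3)) ∂ρ =
      (c ^ 2 * d ^ 2) * ∫ x, f' (x 0) * f' (x 1) * (g' (x 2) * g' (x 3)) ∂ρ := by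
    rw [← integral_const_mul]
    refine integral_congr_ae ?_
    filter_upwards [hae hf 0, hae hf 1, hae hg 2, hae hg 3] with x k0 k1 k2 k3
    rw [k0, k1, k2, k3]
    ring
  have h4 : ∫ x, f x ∂μ = c * ∫ x, f' x ∂μ := by
    rw [integral_congr_ae hf, integral_const_mul]
  have h5 : ∫ x, g x ∂μ = d * ∫ x, g' x ∂μ := by
    rw [integral_congr_ae hg, integral_const_mul]
  rw [h3, h4, h5] at h1
  have h6 : (c ^ 2 * d ^ 2) * ∫ x, f' (x 0) * f' (x 1) * (g' (x 2) * g' (x 3)) ∂ρ =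
      (c ^ 2 * d ^ 2) * ((∫ x, f' x ∂μ) ^ 2 * (∫ x, g' x ∂μ) ^ 2) := by
    rw [h1]; ring
  exact mul_left_cancel₀ (by positivity) h6

/-- Convergence for bounded functions. -/
theorem conv_det' [StandardBorelSpace α] (K : (α → ℝ) → (α → ℝ) → Prop)
    (hW : Wp a b) (hT : Ergodic (⇑T) μ) (hS : Ergodic (⇑S) μ) (hTS : ∀ x, T (S x) = S (T x))
    (hK : ∀ f g, Bd f → Bd g → K f g → Conv μ T S a b f g)
    {f g : α → ℝ} (hf : MemLp f ⊤ μ) (hg : MemLp g ⊤ μ) (h : Det K μ T S f g) :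
    Conv μ T S a b f g := by
  obtain ⟨c, f', hc, hf', hfe⟩ := exists_bd hf
  obtain ⟨d, g', hd, hg', hge⟩ := exists_bd hg
  exact conv_scale hT.toMeasurePreserving hS.toMeasurePreserving hfe hge
    (conv_det K hW hT hS hTS hK hf' hg' (h.scale hc hd hfe hge))

end

end Pool.Agent.Helper30.PJ
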