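import Pool.Agent.Helper30.PJ.Three

/-!
# Project PJ (MP_9a4587_an): eigenfunctions are independent for the limit couplings
-/

set_option autoImplicit false
set_option linter.unusedSectionVars false

namespace Pool.Agent.Helper30.PJ

open MeasureTheory Filter Topology
open Pool.Agent.Helper57.SS

section
variable {α : Type} [MeasurableSpace α] {μ : Measure α} [IsProbabilityMeasure μ]
  {T S : α ≃ᵐ α} {a b : ℕ → ℕ}

theorem eig_iter {T : α → α} {χ : α → ℂ} {c : ℂ} (h : ∀ x, χ (T x) = c * χ x) (n : ℕ) (x : α) :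
    χ (T^[n] x) = c ^ n * χ x := by
  induction n with
  | zero => simp
  | succ n ih => rw [Function.iterate_succ_apply', h, ih, pow_succ]; ring

/-- the modulus of an eigenvalue -/
theorem eig_norm {T : α → α} (hT : MeasurePreserving T μ μ) {χ : α → ℂ} (hχ : Bc χ) {c : ℂ}
    (h : ∀ x, χ (T x) = c * χ x) (h0 : ¬ (χ =ᵐ[μ] 0)) : ‖c‖ = 1 := by
  have h1 : ∫ x, ‖χ (T x)‖ ∂μ = ∫ x, ‖χ x‖ ∂μ := by
    have h2 : ∫ x, ‖χ x‖ ∂μ = ∫ x, ‖χ x‖ ∂(μ.map T) := by rw [hT.map_eq]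
    rw [h2, integral_map hT.measurable.aemeasurable hχ.1.norm.aestronglyMeasurable]
  have h3 : ∫ x, ‖χ (T x)‖ ∂μ = ‖c‖ * ∫ x, ‖χ x‖ ∂μ := by
    rw [← integral_const_mul]
    refine integral_congr_ae (Eventually.of_forall fun x => ?_)
    show ‖χ (T x)‖ = ‖c‖ * ‖χ x‖
    rw [h, norm_mul]
  have h4 : ∫ x, ‖χ x‖ ∂μ ≠ 0 := by
    intro h5
    apply h0
    rw [integral_eq_zero_iff_of_nonneg (fun x => norm_nonneg _) (bc_int hχ μ).norm] at h5
    filter_upwards [h5] with x hx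
    simpa using hx
  rw [h1] at h3
  have h5 : (‖c‖ - 1) * ∫ x, ‖χ x‖ ∂μ = 0 := by linarith
  rcases mul_eq_zero.1 h5 with h6 | h6
  · linarith
  · exact absurd h6 h4

/-- the integral of an eigenfunction -/
theorem eig_int {T : α → α} (hT : MeasurePreserving T μ μ) {χ : α → ℂ} (hχ : Bc χ) {c : ℂ}
    (h : ∀ x, χ (T x) = c * χ x) (hc : c ≠ 1) : ∫ x, χ x ∂μ = 0 := by
  have h1 : ∫ x, χ (T x) ∂μ = ∫ x, χ x ∂μ := by
    have h2 : ∫ x, χ x ∂μ = ∫ x, χ x ∂(μ.map T) := by rw [hT.map_eq]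
    rw [h2, integral_map hT.measurable.aemeasurable hχ.1.aestronglyMeasurable]
  have h3 : ∫ x, χ (T x) ∂μ = c * ∫ x, χ x ∂μ := by
    rw [← integral_const_mul]
    exact integral_congr_ae (Eventually.of_forall fun x => h x)
  rw [h1] at h3
  have h5 : (c - 1) * ∫ x, χ x ∂μ = 0 := by
    rw [sub_mul, one_mul, ← h3, sub_self]
  rcases mul_eq_zero.1 h5 with h6 | h6
  · exact absurd (sub_eq_zero.1 h6) hc
  · exact h6

/-- invariant functions are constant -/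
theorem eig_const {T : α → α} (hT : Ergodic T μ) {χ : α → ℂ} (hχ : Bc χ)
    (h : ∀ x, χ (T x) = 1 * χ x) : χ =ᵐ[μ] fun _ => ∫ x, χ x ∂μ := by
  obtain ⟨c, hc⟩ := hT.ae_eq_const_of_ae_eq_comp₀ hχ.1.nullMeasurable
    (Eventually.of_forall fun x => by
      show χ (T x) = χ x
      rw [h, one_mul])
  have h1 : ∫ x, χ x ∂μ = c := by
    rw [integral_congr_ae hc]
    simp
  rw [h1]
  exact hc

/-- points of the circle -/
theorem exists_angle {c : ℂ} (hc : ‖c‖ = 1) : ∃ θ : Ci, ∀ n : ℕ, fourier (n : ℤ) θ = c ^ n := by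
  refine ⟨((Complex.arg c / (2 * Real.pi) : ℝ) : Ci), fun n => ?_⟩
  rw [fourier_coe_apply]
  have h1 : c = Complex.exp (Complex.arg c * Complex.I) := by
    have := Complex.norm_mul_exp_arg_mul_I c
    rw [hc, Complex.ofReal_one, one_mul] at this
    exact this.symm
  conv_rhs => rw [h1, ← Complex.exp_nat_mul]
  congr 1
  have hpi : (Real.pi : ℂ) ≠ 0 := by exact_mod_cast Real.pi_ne_zero
  push_cast
  field_simp

/-- averages of the eigenvalues -/
theorem eig_avg (hW : Wp a b) {c d : ℂ} (hc : ‖c‖ = 1) (hd : ‖d‖ = 1) (h : ¬ (c = 1 ∧ d = 1)) :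
    Tendsto (fun N : ℕ => (N : ℂ)⁻¹ * ∑ k ∈ Finset.range N, c ^ a k * d ^ b k) atTop (𝓝 0) := by
  obtain ⟨θ, hθ⟩ := exists_angle hc
  obtain ⟨φ, hφ⟩ := exists_angle hd
  have hz : ((θ, φ) : Ci × Ci) ≠ 0 := by
    intro h0
    apply h
    have h1 : θ = 0 := congrArg Prod.fst h0
    have h2 : φ = 0 := congrArg Prod.snd h0
    have h3 := hθ 1
    have h4 := hφ 1
    rw [h1] at h3
    rw [h2] at h4
    simp at h3 h4
    exact ⟨h3.symm, h4.symm⟩
  refine (hW (θ, φ) hz).congr fun N => ?_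
  congr 1
  refine Finset.sum_congr rfl fun k _ => ?_
  unfold e2
  simp only
  rw [hθ, hφ]

theorem avg_norm_le {c d : ℂ} (hc : ‖c‖ = 1) (hd : ‖d‖ = 1) (N : ℕ) :
    ‖(N : ℂ)⁻¹ * ∑ k ∈ Finset.range N, c ^ a k * d ^ b k‖ ≤ 1 := by
  rcases Nat.eq_zero_or_pos N with rfl | hN
  · simp
  · have hN' : (0 : ℝ) < N := by exact_mod_cast hN
    rw [norm_mul, norm_inv, Complex.norm_natCast, inv_mul_le_iff₀ hN', mul_one]
    refine (norm_sum_le _ _).trans ?_
    calc ∑ k ∈ Finset.range N, ‖c ^ a k * d ^ b k‖ ≤ ∑ k ∈ Finset.range N, (1 : ℝ) := by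
          refine Finset.sum_le_sum fun k _ => ?_
          rw [norm_mul, norm_pow, norm_pow, hc, hd]
          simp
      _ = N := by simp

/-- The empirical coupling on eigenfunctions. -/
theorem eig_rho {χ : Fin 4 → α → ℂ} (hχ : ∀ i, Bc (χ i)) {c d : Fin 4 → ℂ}
    (h : ∀ i x, χ i (T x) = c i * χ i x ∧ χ i (S x) = d i * χ i x) (N : ℕ) :
    ∫ x, ∏ i, χ i (x i) ∂(rho μ T S a b N) =
      ((N : ℂ)⁻¹ * ∑ k ∈ Finset.range N, c 0 ^ a k * d 2 ^ b k) *
      ((N : ℂ)⁻¹ * ∑ k ∈ Finset.range N, c 1 ^ a k * d 3 ^ b k) *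
      ∫ x, ∏ i, χ i x ∂μ := by
  rw [rho_int N hχ]
  have h1 : ∀ q : ℕ × ℕ, ∫ x, χ 0 ((⇑T)^[a q.1] x) * χ 1 ((⇑T)^[a q.2] x) *
      χ 2 ((⇑S)^[b q.1] x) * χ 3 ((⇑S)^[b q.2] x) ∂μ =
      (c 0 ^ a q.1 * d 2 ^ b q.1) * (c 1 ^ a q.2 * d 3 ^ b q.2) * ∫ x, ∏ i, χ i x ∂μ := by
    intro q
    rw [← integral_const_mul]
    refine integral_congr_ae (Eventually.of_forall fun x => ?_)
    show _ = _
    simp only
    rw [eig_iter (fun x => (h 0 x).1), eig_iter (fun x => (h 1 x).1),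
      eig_iter (fun x => (h 2 x).2), eig_iter (fun x => (h 3 x).2), Fin.prod_univ_four]
    ring
  simp_rw [h1]
  rw [← Finset.sum_mul, Finset.sum_product]
  have h2 : ∑ k ∈ Finset.range N, ∑ l ∈ Finset.range N,
      (c 0 ^ a k * d 2 ^ b k) * (c 1 ^ a l * d 3 ^ b l) =
      (∑ k ∈ Finset.range N, c 0 ^ a k * d 2 ^ b k) *
      ∑ k ∈ Finset.range N, c 1 ^ a k * d 3 ^ b k := (Finset.sum_mul_sum _ _ _ _).symm
  rw [h2, pow_two, mul_inv]
  ring

/-- The limit on eigenfunctions. -/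
theorem eig_lim (hW : Wp a b) (hT : Ergodic (⇑T) μ) (hS : Ergodic (⇑S) μ)
    {χ : Fin 4 → α → ℂ} (hχ : ∀ i, Bc (χ i)) {c d : Fin 4 → ℂ}
    (h : ∀ i x, χ i (T x) = c i * χ i x ∧ χ i (S x) = d i * χ i x) :
    Tendsto (fun N => ∫ x, ∏ i, χ i (x i) ∂(rho μ T S a b N)) atTop
      (𝓝 (∏ i, ∫ x, χ i x ∂μ)) := by
  have hTm := hT.toMeasurePreserving
  have hSm := hS.toMeasurePreserving
  simp_rw [eig_rho hχ h]
  by_cases h0 : ∃ i, χ i =ᵐ[μ] 0
  · obtain ⟨i, hi⟩ := h0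
    have h1 : ∫ x, ∏ i, χ i x ∂μ = 0 := by
      have : (fun x => ∏ i, χ i x) =ᵐ[μ] fun _ => 0 := by
        filter_upwards [hi] with x hx
        exact Finset.prod_eq_zero (Finset.mem_univ i) hx
      rw [integral_congr_ae this]
      simp
    have h2 : ∏ i, ∫ x, χ i x ∂μ = 0 := by
      refine Finset.prod_eq_zero (Finset.mem_univ i) ?_
      rw [integral_congr_ae hi]
      simp
    rw [h1, h2]
    simp
  · push Not at h0
    have hc : ∀ i, ‖c i‖ = 1 := fun i => eig_norm hTm (hχ i) (fun x => (h i x).1) (h0 i)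
    have hd : ∀ i, ‖d i‖ = 1 := fun i => eig_norm hSm (hχ i) (fun x => (h i x).2) (h0 i)
    have hz : ∀ i, c i ≠ 1 ∨ d i ≠ 1 → ∏ i, ∫ x, χ i x ∂μ = 0 := by
      intro i hi
      refine Finset.prod_eq_zero (Finset.mem_univ i) ?_
      rcases hi with hi | hi
      · exact eig_int hTm (hχ i) (fun x => (h i x).1) hi
      · exact eig_int hSm (hχ i) (fun x => (h i x).2) hi
    by_cases h1 : c 0 = 1 ∧ d 2 = 1
    · by_cases h2 : c 1 = 1 ∧ d 3 = 1
      · have k0 := eig_const hT (hχ 0) (fun x => by rw [← h1.1]; exact (h 0 x).1)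
        have k1 := eig_const hT (hχ 1) (fun x => by rw [← h2.1]; exact (h 1 x).1)
        have k2 := eig_const hS (hχ 2) (fun x => by rw [← h1.2]; exact (h 2 x).2)
        have k3 := eig_const hS (hχ 3) (fun x => by rw [← h2.2]; exact (h 3 x).2)
        have h3 : ∫ x, ∏ i, χ i x ∂μ = ∏ i, ∫ x, χ i x ∂μ := by
          have : (fun x => ∏ i, χ i x) =ᵐ[μ] fun _ => ∏ i, ∫ x, χ i x ∂μ := by
            filter_upwards [k0, k1, k2, k3] with x k0 k1 k2 k3
            rw [Fin.prod_univ_four, Fin.prod_univ_four, k0, k1, k2, k3]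
          rw [integral_congr_ae this]
          simp
        rw [h3, h1.1, h1.2, h2.1, h2.2]
        have h4 : ∀ᶠ N : ℕ in atTop, ∏ i, ∫ x, χ i x ∂μ =
            ((N : ℂ)⁻¹ * ∑ k ∈ Finset.range N, (1 : ℂ) ^ a k * 1 ^ b k) *
            ((N : ℂ)⁻¹ * ∑ k ∈ Finset.range N, (1 : ℂ) ^ a k * 1 ^ b k) *
            ∏ i, ∫ x, χ i x ∂μ := by
          filter_upwards [eventually_gt_atTop 0] with N hN
          have hN' : (N : ℂ) ≠ 0 := by exact_mod_cast hN.ne'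
          simp [inv_mul_cancel₀ hN']
        exact tendsto_const_nhds.congr' h4
      · have h3 : ∏ i, ∫ x, χ i x ∂μ = 0 := by
          by_cases h4 : c 1 = 1
          · exact hz 3 (Or.inr fun h5 => h2 ⟨h4, h5⟩)
          · exact hz 1 (Or.inl h4)
        rw [h3]
        have h4 := eig_avg hW (hc 1) (hd 3) h2
        have h5 : Tendsto (fun N : ℕ => ((N : ℂ)⁻¹ * ∑ k ∈ Finset.range N, c 0 ^ a k * d 2 ^ b k) *
            ((N : ℂ)⁻¹ * ∑ k ∈ Finset.range N, c 1 ^ a k * d 3 ^ b k)) atTop (𝓝 0) := by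
          refine squeeze_zero_norm (a := fun N : ℕ =>
            ‖(N : ℂ)⁻¹ * ∑ k ∈ Finset.range N, c 1 ^ a k * d 3 ^ b k‖) (fun N => ?_) ?_
          · rw [norm_mul]
            exact mul_le_of_le_one_left (norm_nonneg _) (avg_norm_le (hc 0) (hd 2) N)
          · simpa using h4.norm
        simpa using h5.mul_const (∫ x, ∏ i, χ i x ∂μ)
    · have h3 : ∏ i, ∫ x, χ i x ∂μ = 0 := by
        by_cases h4 : c 0 = 1
        · exact hz 2 (Or.inr fun h5 => h1 ⟨h4, h5⟩)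
        · exact hz 0 (Or.inl h4)
      rw [h3]
      have h4 := eig_avg hW (hc 0) (hd 2) h1
      have h5 : Tendsto (fun N : ℕ => ((N : ℂ)⁻¹ * ∑ k ∈ Finset.range N, c 0 ^ a k * d 2 ^ b k) *
          ((N : ℂ)⁻¹ * ∑ k ∈ Finset.range N, c 1 ^ a k * d 3 ^ b k)) atTop (𝓝 0) := by
        refine squeeze_zero_norm (a := fun N : ℕ =>
          ‖(N : ℂ)⁻¹ * ∑ k ∈ Finset.range N, c 0 ^ a k * d 2 ^ b k‖) (fun N => ?_) ?_
        · rw [norm_mul]
          exact mul_le_of_le_one_right (norm_nonneg _) (avg_norm_le (hc 1) (hd 3) N)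
        · simpa using h4.norm
      simpa using h5.mul_const (∫ x, ∏ i, χ i x ∂μ)

end

end Pool.Agent.Helper30.PJ
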