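import Mathlib

/-!
# Project PJ (MP_9a4587_an): limits of couplings of four copies of a probability measure
-/

set_option autoImplicit false

namespace Pool.Agent.Helper30.PJ

open MeasureTheory Filter Topology

section
variable {α : Type} [MeasurableSpace α]

/-- bounded measurable complex functions -/
def Bc (u : α → ℂ) : Prop := Measurable u ∧ ∃ C : ℝ, ∀ x, ‖u x‖ ≤ C

theorem prod_meas {u : Fin 4 → α → ℂ} (hu : ∀ i, Bc (u i)) :
    Measurable fun x : Fin 4 → α => ∏ i, u i (x i) :=
  Finset.measurable_prod _ fun i _ => (hu i).1.comp (measurable_pi_apply i)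

theorem prod_bd {u : Fin 4 → α → ℂ} (hu : ∀ i, Bc (u i)) :
    ∃ C : ℝ, ∀ x : Fin 4 → α, ‖∏ i, u i (x i)‖ ≤ C := by
  choose C hC using fun i => (hu i).2
  refine ⟨∏ i, C i, fun x => ?_⟩
  rw [norm_prod]
  exact Finset.prod_le_prod (fun i _ => norm_nonneg _) fun i _ => hC i _

theorem prod_int {u : Fin 4 → α → ℂ} (hu : ∀ i, Bc (u i)) (ρ : Measure (Fin 4 → α))
    [IsFiniteMeasure ρ] : Integrable (fun x : Fin 4 → α => ∏ i, u i (x i)) ρ := by
  obtain ⟨C, hC⟩ := prod_bd hu
  exact Integrable.of_bound (prod_meas hu).aestronglyMeasurable C (Eventually.of_forall hC)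

theorem bc_int {u : α → ℂ} (hu : Bc u) (μ : Measure α) [IsFiniteMeasure μ] :
    Integrable u μ := by
  obtain ⟨h1, C, hC⟩ := hu
  exact Integrable.of_bound h1.aestronglyMeasurable C (Eventually.of_forall hC)

/-- changing one of the functions -/
theorem change {μ : Measure α} [IsProbabilityMeasure μ] {u : Fin 4 → α → ℂ}
    (hu : ∀ i, Bc (u i)) (i₀ : Fin 4) : ∃ C : ℝ, 0 < C ∧ ∀ (v : α → ℂ), Bc v →
    ∀ ρ : Measure (Fin 4 → α), IsProbabilityMeasure ρ → ρ.map (fun x => x i₀) = μ →
    ‖∫ x, ∏ i, u i (x i) ∂ρ - ∫ x, ∏ i, Function.update u i₀ v i (x i) ∂ρ‖ ≤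
      C * ∫ x, ‖u i₀ x - v x‖ ∂μ := by
  classical
  choose C hC using fun i => (hu i).2
  have hC0 : ∀ i, 0 ≤ |C i| := fun i => abs_nonneg _
  refine ⟨∏ i ∈ Finset.univ.erase i₀, (|C i| + 1), by positivity, ?_⟩
  intro v hv ρ hρ hm
  have hup : ∀ i, Bc (Function.update u i₀ v i) := by
    intro i
    by_cases h : i = i₀
    · subst h; simpa using hv
    · rw [Function.update_of_ne h]; exact hu i
  rw [← integral_sub (prod_int hu ρ) (prod_int hup ρ)]
  have h1 : ∀ x : Fin 4 → α, ∏ i, u i (x i) - ∏ i, Function.update u i₀ v i (x i) =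
      (u i₀ (x i₀) - v (x i₀)) * ∏ i ∈ Finset.univ.erase i₀, u i (x i) := by
    intro x
    rw [← Finset.mul_prod_erase _ _ (Finset.mem_univ i₀),
      ← Finset.mul_prod_erase Finset.univ (fun i => Function.update u i₀ v i (x i))
        (Finset.mem_univ i₀), Function.update_self, sub_mul]
    congr 2
    refine Finset.prod_congr rfl fun i hi => ?_
    rw [Function.update_of_ne (Finset.ne_of_mem_erase hi)]
  have h2 : ∀ x : Fin 4 → α, ‖∏ i, u i (x i) - ∏ i, Function.update u i₀ v i (x i)‖ ≤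
      (∏ i ∈ Finset.univ.erase i₀, (|C i| + 1)) * ‖u i₀ (x i₀) - v (x i₀)‖ := by
    intro x
    rw [h1, norm_mul, norm_prod, mul_comm]
    refine mul_le_mul_of_nonneg_right (Finset.prod_le_prod (fun i _ => norm_nonneg _)
      fun i _ => ?_) (norm_nonneg _)
    exact (hC i _).trans ((le_abs_self _).trans (by linarith))
  have hd : Bc (fun x => u i₀ x - v x) := by
    obtain ⟨h3, D, hD⟩ := hv
    refine ⟨(hu i₀).1.sub h3, C i₀ + D, fun x => (norm_sub_le _ _).trans ?_⟩
    exact add_le_add (hC i₀ x) (hD x)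
  have h4 : Integrable (fun x : α => ‖u i₀ x - v x‖) μ := (bc_int hd μ).norm
  have h5 : ∫ x : Fin 4 → α, ‖u i₀ (x i₀) - v (x i₀)‖ ∂ρ = ∫ x, ‖u i₀ x - v x‖ ∂μ := by
    rw [← hm, integral_map (measurable_pi_apply i₀).aemeasurable]
    rw [hm]
    exact h4.aestronglyMeasurable
  have h6 : Integrable (fun x : Fin 4 → α => ‖u i₀ (x i₀) - v (x i₀)‖) ρ := by
    have : Integrable (fun x : α => ‖u i₀ x - v x‖) (ρ.map (fun x => x i₀)) := by rwa [hm]
    exact this.comp_measurable (measurable_pi_apply i₀)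
  rw [← h5, ← integral_const_mul]
  exact norm_integral_le_of_norm_le (h6.const_mul _) (Eventually.of_forall h2)

/-- Limits of couplings. -/
theorem exists_lim [StandardBorelSpace α] (μ : Measure α) [IsProbabilityMeasure μ]
    (ρ : ℕ → Measure (Fin 4 → α)) (hp : ∀ n, IsProbabilityMeasure (ρ n))
    (hm : ∀ n i, (ρ n).map (fun x => x i) = μ) (U : Ultrafilter ℕ) :
    ∃ ρ' : Measure (Fin 4 → α), IsProbabilityMeasure ρ' ∧ (∀ i, ρ'.map (fun x => x i) = μ) ∧
      ∀ u : Fin 4 → α → ℂ, (∀ i, Bc (u i)) →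
        Tendsto (fun n => ∫ x, ∏ i, u i (x i) ∂(ρ n)) U (𝓝 (∫ x, ∏ i, u i (x i) ∂ρ')) := by
  let _ := upgradeStandardBorel α
  let P : ℕ → ProbabilityMeasure (Fin 4 → α) := fun n => ⟨ρ n, hp n⟩
  have htight : IsTightMeasureSet
      {((ν : ProbabilityMeasure (Fin 4 → α)) : Measure (Fin 4 → α)) | ν ∈ Set.range P} := by
    rw [isTightMeasureSet_iff_exists_isCompact_measure_compl_le]
    intro ε hε
    have h1 := isTightMeasureSet_iff_exists_isCompact_measure_compl_le.1
      (isTightMeasureSet_singleton (μ := μ)) (ε / 4) (ENNReal.div_pos hε.ne' (by norm_num))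
    obtain ⟨K, hK, hK2⟩ := h1
    have hK3 : μ Kᶜ ≤ ε / 4 := hK2 μ rfl
    refine ⟨Set.univ.pi fun _ => K, isCompact_univ_pi fun _ => hK, ?_⟩
    rintro _ ⟨ν, ⟨n, rfl⟩, rfl⟩
    show ρ n (Set.univ.pi fun _ : Fin 4 => K)ᶜ ≤ ε
    have h2 : (Set.univ.pi fun _ : Fin 4 => K)ᶜ ⊆
        ⋃ i : Fin 4, (fun x : Fin 4 → α => x i) ⁻¹' Kᶜ := by
      intro x hx
      simp only [Set.mem_compl_iff, Set.mem_pi, Set.mem_univ, true_imp_iff, not_forall] at hx
      obtain ⟨i, hi⟩ := hx
      exact Set.mem_iUnion.2 ⟨i, hi⟩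
    refine (measure_mono h2).trans ((measure_iUnion_fintype_le _ _).trans ?_)
    have h3 : ∀ i : Fin 4, ρ n ((fun x : Fin 4 → α => x i) ⁻¹' Kᶜ) ≤ ε / 4 := by
      intro i
      rw [← Measure.map_apply (measurable_pi_apply i) hK.isClosed.measurableSet.compl, hm]
      exact hK3
    refine (Finset.sum_le_sum fun i _ => h3 i).trans ?_
    rw [Finset.sum_const, Finset.card_univ, Fintype.card_fin, nsmul_eq_mul]
    exact (ENNReal.mul_div_cancel (by norm_num) (by norm_num)).le
  have hcomp := isCompact_closure_of_isTightMeasureSet htight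
  obtain ⟨Q, -, hQ⟩ := isCompact_iff_ultrafilter_le_nhds.1 hcomp (U.map P) (by
    rw [le_principal_iff]
    exact Filter.mem_map.2 (Filter.Eventually.of_forall fun n => subset_closure ⟨n, rfl⟩))
  have hQ' : Tendsto P U (𝓝 Q) := hQ
  have hmQ : ∀ i, (Q : Measure (Fin 4 → α)).map (fun x => x i) = μ := by
    intro i
    have h1 := (ProbabilityMeasure.continuous_map (continuous_apply i :
      Continuous fun x : Fin 4 → α => x i)).continuousAt.tendsto.comp hQ'
    have h2 : ∀ n, (ProbabilityMeasure.map (P n)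
        (continuous_apply i : Continuous fun x : Fin 4 → α => x i).measurable.aemeasurable) =
        (⟨μ, inferInstance⟩ : ProbabilityMeasure α) := by
      intro n
      apply Subtype.ext
      exact hm n i
    have h3 := tendsto_nhds_unique h1 (tendsto_const_nhds.congr fun n => (h2 n).symm)
    exact congrArg Subtype.val h3
  refine ⟨Q, Q.2, hmQ, ?_⟩
  have key : ∀ s : Finset (Fin 4), ∀ u : Fin 4 → α → ℂ, (∀ i, Bc (u i)) →
      (∀ i, i ∉ s → Continuous (u i)) →
      Tendsto (fun n => ∫ x, ∏ i, u i (x i) ∂(ρ n)) U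
        (𝓝 (∫ x, ∏ i, u i (x i) ∂(Q : Measure (Fin 4 → α)))) := by
    intro s
    induction s using Finset.induction_on with
    | empty =>
      intro u hu hc
      obtain ⟨C, hC⟩ := prod_bd hu
      have hcont : Continuous fun x : Fin 4 → α => ∏ i, u i (x i) :=
        continuous_finsetProd _ fun i _ => (hc i (Finset.notMem_empty i)).comp (continuous_apply i)
      have h1 := (ProbabilityMeasure.tendsto_iff_forall_integral_rclike_tendsto ℂ).1 hQ'
        (BoundedContinuousFunction.ofNormedAddCommGroup _ hcont C hC)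
      exact h1
    | insert i₀ s hi₀ ih =>
      intro u hu hc
      rw [Metric.tendsto_nhds]
      intro ε hε
      obtain ⟨C, hC, hch⟩ := change (μ := μ) hu i₀
      obtain ⟨v, hv, -⟩ := (bc_int (hu i₀) μ).exists_boundedContinuous_integral_sub_le
        (show 0 < ε / (4 * C) by positivity)
      have hvb : Bc (v : α → ℂ) := ⟨v.continuous.measurable, ‖v‖, fun x => v.norm_coe_le_norm x⟩
      have hup : ∀ i, Bc (Function.update u i₀ v i) := by
        intro i
        by_cases h : i = i₀
        · subst h; simpa using hvb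
        · rw [Function.update_of_ne h]; exact hu i
      have h1 := ih (Function.update u i₀ v) hup (by
        intro i hi
        by_cases h : i = i₀
        · subst h; simpa using v.continuous
        · rw [Function.update_of_ne h]
          exact hc i (by
            rw [Finset.mem_insert, not_or]
            exact ⟨h, hi⟩))
      have h2 := (Metric.tendsto_nhds.1 h1) (ε / 4) (by positivity)
      filter_upwards [h2] with n hn
      have h3 := hch v hvb (ρ n) (hp n) (hm n i₀)
      have h4 := hch v hvb Q Q.2 (hmQ i₀)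
      have h5 : C * ∫ x, ‖u i₀ x - v x‖ ∂μ ≤ ε / 4 := by
        calc _ ≤ C * (ε / (4 * C)) := mul_le_mul_of_nonneg_left hv hC.le
          _ = ε / 4 := by field_simp
      have h3' := h3.trans h5
      have h4' := h4.trans h5
      rw [← dist_eq_norm] at h3' h4'
      rw [dist_comm] at h4'
      calc dist (∫ x, ∏ i, u i (x i) ∂(ρ n)) (∫ x, ∏ i, u i (x i) ∂(Q : Measure (Fin 4 → α))) ≤
          dist (∫ x, ∏ i, u i (x i) ∂(ρ n))
            (∫ x, ∏ i, Function.update u i₀ v i (x i) ∂(ρ n)) +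
          dist (∫ x, ∏ i, Function.update u i₀ v i (x i) ∂(ρ n))
            (∫ x, ∏ i, Function.update u i₀ v i (x i) ∂(Q : Measure (Fin 4 → α))) +
          dist (∫ x, ∏ i, Function.update u i₀ v i (x i) ∂(Q : Measure (Fin 4 → α)))
            (∫ x, ∏ i, u i (x i) ∂(Q : Measure (Fin 4 → α))) := dist_triangle4 _ _ _ _
        _ < ε := by linarith
  intro u hu
  exact key Finset.univ u hu (fun i hi => absurd (Finset.mem_univ i) hi)

end

end Pool.Agent.Helper30.PJ
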