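import Pool.Agent.Helper57.SS.Defs
import Pool.Agent.Helper30.PJ.Lim

/-!
# Project PJ (MP_9a4587_an): the empirical couplings
-/

set_option autoImplicit false
set_option linter.unusedSectionVars false

namespace Pool.Agent.Helper30.PJ

open MeasureTheory Filter Topology
open Pool.Agent.Helper57.SS

section
variable {α : Type} [MeasurableSpace α]

/-- The four points. -/
def pt (T S : α ≃ᵐ α) (a b : ℕ → ℕ) (q : ℕ × ℕ) (x : α) : Fin 4 → α :=
  ![(⇑T)^[a q.1] x, (⇑T)^[a q.2] x, (⇑S)^[b q.1] x, (⇑S)^[b q.2] x]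

theorem pt_meas (T S : α ≃ᵐ α) (a b : ℕ → ℕ) (q : ℕ × ℕ) : Measurable (pt T S a b q) := by
  have hT : ∀ n, Measurable ((⇑T)^[n]) := fun n => T.measurable.iterate n
  have hS : ∀ n, Measurable ((⇑S)^[n]) := fun n => S.measurable.iterate n
  refine measurable_pi_lambda _ fun i => ?_
  fin_cases i
  · exact hT _
  · exact hT _
  · exact hS _
  · exact hS _

/-- The empirical coupling. -/
noncomputable def rho (μ : Measure α) (T S : α ≃ᵐ α) (a b : ℕ → ℕ) (N : ℕ) :
    Measure (Fin 4 → α) :=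
  ENNReal.ofReal (((N : ℝ) ^ 2)⁻¹) •
    ∑ q ∈ Finset.range N ×ˢ Finset.range N, μ.map (pt T S a b q)

variable {μ : Measure α} [IsProbabilityMeasure μ] {T S : α ≃ᵐ α} {a b : ℕ → ℕ}

theorem rho_apply {N : ℕ} {s : Set (Fin 4 → α)} (hs : MeasurableSet s) :
    rho μ T S a b N s = ENNReal.ofReal (((N : ℝ) ^ 2)⁻¹) *
      ∑ q ∈ Finset.range N ×ˢ Finset.range N, μ (pt T S a b q ⁻¹' s) := by
  rw [rho, Measure.smul_apply, Measure.finsetSum_apply, smul_eq_mul]
  congr 1
  exact Finset.sum_congr rfl fun q _ => Measure.map_apply (pt_meas T S a b q) hs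

theorem avg_const {N : ℕ} (hN : 0 < N) (c : ENNReal) : ENNReal.ofReal (((N : ℝ) ^ 2)⁻¹) *
    ∑ _q ∈ Finset.range N ×ˢ Finset.range N, c = c := by
  have hN' : (0 : ℝ) < N := by exact_mod_cast hN
  rw [Finset.sum_const, Finset.card_product, Finset.card_range, nsmul_eq_mul, ← mul_assoc]
  have : ENNReal.ofReal (((N : ℝ) ^ 2)⁻¹) * ((N * N : ℕ) : ENNReal) = 1 := by
    rw [← ENNReal.ofReal_natCast, ← ENNReal.ofReal_mul (by positivity)]
    rw [← ENNReal.ofReal_one]
    congr 1
    push_cast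
    field_simp
  rw [this, one_mul]

theorem rho_prob {N : ℕ} (hN : 0 < N) : IsProbabilityMeasure (rho μ T S a b N) := by
  constructor
  rw [rho_apply MeasurableSet.univ]
  simp only [Set.preimage_univ, measure_univ]
  exact avg_const hN 1

theorem rho_marg (hT : MeasurePreserving (⇑T) μ μ) (hS : MeasurePreserving (⇑S) μ μ) {N : ℕ}
    (hN : 0 < N) (i : Fin 4) : (rho μ T S a b N).map (fun x => x i) = μ := by
  ext s hs
  rw [Measure.map_apply (measurable_pi_apply i) hs, rho_apply (measurable_pi_apply i hs)]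
  have h : ∀ q : ℕ × ℕ, μ (pt T S a b q ⁻¹' ((fun x : Fin 4 → α => x i) ⁻¹' s)) = μ s := by
    intro q
    fin_cases i
    · exact (hT.iterate (a q.1)).measure_preimage hs.nullMeasurableSet
    · exact (hT.iterate (a q.2)).measure_preimage hs.nullMeasurableSet
    · exact (hS.iterate (b q.1)).measure_preimage hs.nullMeasurableSet
    · exact (hS.iterate (b q.2)).measure_preimage hs.nullMeasurableSet
  simp only [h]
  exact avg_const hN _

theorem rho_inv {R : α ≃ᵐ α} (hR : MeasurePreserving (⇑R) μ μ) (hRT : ∀ x, T (R x) = R (T x))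
    (hRS : ∀ x, S (R x) = R (S x)) (N : ℕ) :
    (rho μ T S a b N).map (fun x i => R (x i)) = rho μ T S a b N := by
  have hm : Measurable fun (x : Fin 4 → α) (i : Fin 4) => R (x i) :=
    measurable_pi_lambda _ fun i => R.measurable.comp (measurable_pi_apply i)
  have hT' : ∀ n x, (⇑T)^[n] (R x) = R ((⇑T)^[n] x) := fun n x =>
    (Function.Commute.iterate_left (f := ⇑T) (g := ⇑R) hRT n) x
  have hS' : ∀ n x, (⇑S)^[n] (R x) = R ((⇑S)^[n] x) := fun n x =>
    (Function.Commute.iterate_left (f := ⇑S) (g := ⇑R) hRS n) x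
  ext s hs
  rw [Measure.map_apply hm hs, rho_apply (hm hs), rho_apply hs]
  congr 1
  refine Finset.sum_congr rfl fun q _ => ?_
  rw [← hR.measure_preimage (pt_meas T S a b q hs).nullMeasurableSet]
  congr 1
  ext x
  simp only [Set.mem_preimage]
  have : (fun i => R (pt T S a b q x i)) = pt T S a b q (R x) := by
    funext i
    fin_cases i
    · exact (hT' _ x).symm
    · exact (hT' _ x).symm
    · exact (hS' _ x).symm
    · exact (hS' _ x).symm
  rw [this]

theorem rho_int (N : ℕ) {u : Fin 4 → α → ℂ} (hu : ∀ i, Bc (u i)) :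
    ∫ x, ∏ i, u i (x i) ∂(rho μ T S a b N) = ((N : ℂ) ^ 2)⁻¹ *
      ∑ q ∈ Finset.range N ×ˢ Finset.range N,
        ∫ x, u 0 ((⇑T)^[a q.1] x) * u 1 ((⇑T)^[a q.2] x) * u 2 ((⇑S)^[b q.1] x) *
          u 3 ((⇑S)^[b q.2] x) ∂μ := by
  rw [rho, integral_smul_measure, integral_finsetSum_measure]
  · rw [ENNReal.toReal_ofReal (by positivity)]
    have : ∀ z : ℂ, (((N : ℝ) ^ 2)⁻¹ : ℝ) • z = ((N : ℂ) ^ 2)⁻¹ * z := by
      intro z
      rw [Complex.real_smul]
      push_cast
      rfl
    rw [this]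
    congr 1
    refine Finset.sum_congr rfl fun q _ => ?_
    rw [integral_map (pt_meas T S a b q).aemeasurable (prod_meas hu).aestronglyMeasurable]
    refine integral_congr_ae (Eventually.of_forall fun x => ?_)
    show ∏ i, u i (pt T S a b q x i) = _
    rw [Fin.prod_univ_four]
    rfl
  · intro q _
    have : IsProbabilityMeasure (μ.map (pt T S a b q)) :=
      Measure.isProbabilityMeasure_map (pt_meas T S a b q).aemeasurable
    exact prod_int hu _

end

end Pool.Agent.Helper30.PJ
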