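import Pool.Agent.Helper57.SS.Main2
import Pool.Agent.Helper30.PJ.Rho

/-!
# Project PJ (MP_9a4587_an): any three coordinates of the limit couplings are independent
-/

set_option autoImplicit false
set_option linter.unusedSectionVars false

namespace Pool.Agent.Helper30.PJ

open MeasureTheory Filter Topology
open Pool.Agent.Helper57.SS

section
variable {α : Type} [MeasurableSpace α] {μ : Measure α} [IsProbabilityMeasure μ]
  {T S : α ≃ᵐ α} {a b : ℕ → ℕ}

theorem Av_bd {f g : α → ℝ} (hf : Bd f) (hg : Bd g) (N : ℕ) : Bd (Av T S a b f g N) := by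
  have hT : ∀ n, Measurable ((⇑T)^[n]) := fun n => T.measurable.iterate n
  have hS : ∀ n, Measurable ((⇑S)^[n]) := fun n => S.measurable.iterate n
  refine ⟨?_, fun x => ?_⟩
  · unfold Av
    exact (Finset.measurable_sum _ fun k _ => (hf.1.comp (hT _)).mul (hg.1.comp (hS _))).const_mul _
  · unfold Av
    rcases Nat.eq_zero_or_pos N with rfl | hN
    · simp
    · rw [abs_mul, abs_inv, Nat.abs_cast, inv_mul_le_iff₀ (by exact_mod_cast hN), mul_one]
      refine (Finset.abs_sum_le_sum_abs _ _).trans ?_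
      calc ∑ k ∈ Finset.range N, |f ((⇑T)^[a k] x) * g ((⇑S)^[b k] x)| ≤
          ∑ k ∈ Finset.range N, (1 : ℝ) := by
            refine Finset.sum_le_sum fun k _ => ?_
            rw [abs_mul]
            exact mul_le_one₀ (hf.2 _) (abs_nonneg _) (hg.2 _)
        _ = N := by simp

theorem bd_mul {f g : α → ℝ} (hf : Bd f) (hg : Bd g) : Bd (fun x => f x * g x) :=
  ⟨hf.1.mul hg.1, fun x => by
    rw [abs_mul]
    exact mul_le_one₀ (hf.2 _) (abs_nonneg _) (hg.2 _)⟩

theorem bd_one : Bd (fun _ : α => (1 : ℝ)) := ⟨measurable_const, fun _ => by simp⟩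

/-- a product of averages -/
theorem prod_lim {X Y : ℕ → α → ℝ} {m y : ℝ} (hX : ∀ N, Bd (X N)) (hY : ∀ N, Bd (Y N))
    (h1 : Tendsto (fun N => eLpNorm (fun x => X N x - m) 2 μ) atTop (𝓝 0))
    (h2 : Tendsto (fun N => ∫ x, Y N x ∂μ) atTop (𝓝 y)) :
    Tendsto (fun N => ∫ x, Y N x * X N x ∂μ) atTop (𝓝 (y * m)) := by
  have hm : ∀ N, AEStronglyMeasurable (fun x => X N x - m) μ := fun N =>
    ((hX N).1.sub_const m).aestronglyMeasurable
  have hfin : ∀ N, eLpNorm (fun x => X N x - m) 2 μ ≠ ⊤ := fun N =>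
    (MemLp.of_bound (hm N) (1 + |m|) (Eventually.of_forall fun x => by
      rw [Real.norm_eq_abs]
      have h3 := (hX N).2 x
      have h4 : |X N x - m| ≤ |X N x| + |m| := abs_sub _ _
      linarith)).2.ne
  have h3 : Tendsto (fun N => ∫ x, Y N x * (X N x - m) ∂μ) atTop (𝓝 0) := by
    refine squeeze_zero_norm (a := fun N => (eLpNorm (fun x => X N x - m) 2 μ).toReal) (fun N => ?_)
      ?_
    · have h4 : ‖∫ x, Y N x * (X N x - m) ∂μ‖ₑ ≤ eLpNorm (fun x => X N x - m) 2 μ := by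
        have hmm : AEStronglyMeasurable (fun x => Y N x * (X N x - m)) μ :=
          (hY N).1.aestronglyMeasurable.mul (hm N)
        calc ‖∫ x, Y N x * (X N x - m) ∂μ‖ₑ ≤ ∫⁻ x, ‖Y N x * (X N x - m)‖ₑ ∂μ :=
              enorm_integral_le_lintegral_enorm _
          _ = eLpNorm (fun x => Y N x * (X N x - m)) 1 μ := eLpNorm_one_eq_lintegral_enorm.symm
          _ ≤ eLpNorm (fun x => Y N x * (X N x - m)) 2 μ :=
              eLpNorm_le_eLpNorm_of_exponent_le (by norm_num) hmm
          _ ≤ _ := eLpNorm_mono fun x => by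
              rw [norm_mul]
              have := (hY N).2 x
              rw [← Real.norm_eq_abs] at this
              exact mul_le_of_le_one_left (norm_nonneg _) this
      have h5 := ENNReal.toReal_mono (hfin N) h4
      rwa [toReal_enorm] at h5
    · have := (ENNReal.tendsto_toReal ENNReal.zero_ne_top).comp h1
      rw [ENNReal.toReal_zero] at this
      exact this
  have h4 : ∀ N, ∫ x, Y N x * X N x ∂μ =
      ∫ x, Y N x * (X N x - m) ∂μ + (∫ x, Y N x ∂μ) * m := by
    intro N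
    rw [← integral_mul_const, ← integral_add]
    · refine integral_congr_ae (Eventually.of_forall fun x => ?_)
      show _ = _
      ring
    · refine Integrable.of_bound ((hY N).1.mul ((hX N).1.sub_const m)).aestronglyMeasurable
        (1 + |m|) (Eventually.of_forall fun x => ?_)
      rw [Real.norm_eq_abs, abs_mul]
      have h3 := (hX N).2 x
      have h4 : |X N x - m| ≤ |X N x| + |m| := abs_sub _ _
      have h5 := (hY N).2 x
      calc |Y N x| * |X N x - m| ≤ 1 * (1 + |m|) :=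
            mul_le_mul h5 (by linarith) (abs_nonneg _) zero_le_one
        _ = _ := one_mul _
    · exact (bd_int (hY N)).mul_const m
  simp_rw [h4]
  have := h3.add (h2.mul_const m)
  simpa using this

variable (hW : Wp a b) (hT : Ergodic (⇑T) μ) (hS : Ergodic (⇑S) μ) (hTS : ∀ x, T (S x) = S (T x))

include hW hT in
theorem conv_right {f : α → ℝ} (hf : Bd f) : Conv μ T S a b f (fun _ => 1) :=
  conv_const pHZ Pool.Agent.Helper88.SS.gZP Pool.Agent.Helper16.SS.gVN Pool.Agent.Helper87.SS.gEL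
    hW hT (bd_memLp hf 2) 1

include hW hS in
theorem conv_left {g : α → ℝ} (hg : Bd g) : Conv μ T S a b (fun _ => 1) g :=
  (conv_const pHZ Pool.Agent.Helper88.SS.gZP Pool.Agent.Helper16.SS.gVN Pool.Agent.Helper87.SS.gEL
    (Pool.Agent.Helper4.SS.gWSY a b hW) hS (bd_memLp hg 2) 1).swap

include hW hT hS hTS in
theorem int_Av_lim {f g : α → ℝ} (hf : Bd f) (hg : Bd g) :
    Tendsto (fun N => ∫ x, Av T S a b f g N x ∂μ) atTop
      (𝓝 ((∫ x, f x ∂μ) * ∫ x, g x ∂μ)) := by
  have h := Pool.Agent.Helper34.SS.gE3 Pool.Agent.Helper87.SS.gEL pHZ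
    Pool.Agent.Helper88.SS.gZP Pool.Agent.Helper16.SS.gVN a b hW α μ T S hT hS hTS f g hf hg
  refine h.congr fun N => ?_
  have hTm : ∀ n, Measurable ((⇑T)^[n]) := fun n => T.measurable.iterate n
  have hSm : ∀ n, Measurable ((⇑S)^[n]) := fun n => S.measurable.iterate n
  unfold Av
  rw [integral_const_mul, integral_finsetSum]
  intro k _
  exact bd_int (bd_mul ⟨hf.1.comp (hTm _), fun x => hf.2 _⟩ ⟨hg.1.comp (hSm _), fun x => hg.2 _⟩)

include hW hT hS hTS in
/-- if one of the functions is `1`, the limit is the product of the integrals -/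
theorem three_lim {u : Fin 4 → α → ℝ} (hu : ∀ i, Bd (u i)) (h : ∃ i, u i = fun _ => 1) :
    Tendsto (fun N => ∫ x, Av T S a b (u 0) (u 2) N x * Av T S a b (u 1) (u 3) N x ∂μ) atTop
      (𝓝 (∏ i, ∫ x, u i x ∂μ)) := by
  rw [Fin.prod_univ_four]
  obtain ⟨i, hi⟩ := h
  fin_cases i
  · have hi' : u 0 = fun _ => 1 := hi
    have h1 := conv_left (T := T) hW hS (hu 2)
    rw [← hi'] at h1
    have h2 := int_Av_lim hW hT hS hTS (hu 1) (hu 3)
    have := prod_lim (fun N => Av_bd (hu 0) (hu 2) N) (fun N => Av_bd (hu 1) (hu 3) N) h1 h2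
    refine (this.congr fun N => ?_).trans (le_of_eq ?_)
    · exact integral_congr_ae (Eventually.of_forall fun x => mul_comm _ _)
    · congr 1
      ring
  · have hi' : u 1 = fun _ => 1 := hi
    have h1 := conv_left (T := T) hW hS (hu 3)
    rw [← hi'] at h1
    have h2 := int_Av_lim hW hT hS hTS (hu 0) (hu 2)
    have := prod_lim (fun N => Av_bd (hu 1) (hu 3) N) (fun N => Av_bd (hu 0) (hu 2) N) h1 h2
    refine this.trans (le_of_eq ?_)
    congr 1
    ring
  · have hi' : u 2 = fun _ => 1 := hi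
    have h1 := conv_right (S := S) hW hT (hu 0)
    rw [← hi'] at h1
    have h2 := int_Av_lim hW hT hS hTS (hu 1) (hu 3)
    have := prod_lim (fun N => Av_bd (hu 0) (hu 2) N) (fun N => Av_bd (hu 1) (hu 3) N) h1 h2
    refine (this.congr fun N => ?_).trans (le_of_eq ?_)
    · exact integral_congr_ae (Eventually.of_forall fun x => mul_comm _ _)
    · congr 1
      ring
  · have hi' : u 3 = fun _ => 1 := hi
    have h1 := conv_right (S := S) hW hT (hu 1)
    rw [← hi'] at h1
    have h2 := int_Av_lim hW hT hS hTS (hu 0) (hu 2)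
    have := prod_lim (fun N => Av_bd (hu 1) (hu 3) N) (fun N => Av_bd (hu 0) (hu 2) N) h1 h2
    refine this.trans (le_of_eq ?_)
    congr 1
    ring

/-- the integral of a product of real functions for the empirical coupling -/
theorem rho_real {u : Fin 4 → α → ℝ} (hu : ∀ i, Bd (u i)) (N : ℕ) :
    ∫ x, ∏ i, ((u i (x i) : ℝ) : ℂ) ∂(rho μ T S a b N) =
      ((∫ x, Av T S a b (u 0) (u 2) N x * Av T S a b (u 1) (u 3) N x ∂μ : ℝ) : ℂ) := by
  have hTm : ∀ n, Measurable ((⇑T)^[n]) := fun n => T.measurable.iterate n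
  have hSm : ∀ n, Measurable ((⇑S)^[n]) := fun n => S.measurable.iterate n
  have hb : ∀ i, Bc (fun x => ((u i x : ℝ) : ℂ)) := fun i =>
    ⟨Complex.measurable_ofReal.comp (hu i).1, 1, fun x => by
      rw [Complex.norm_real, Real.norm_eq_abs]
      exact (hu i).2 x⟩
  have h1 := rho_int (μ := μ) (T := T) (S := S) (a := a) (b := b) N hb
  rw [h1]
  have h2 : ∀ q : ℕ × ℕ, ∫ x, ((u 0 ((⇑T)^[a q.1] x) : ℝ) : ℂ) * ((u 1 ((⇑T)^[a q.2] x) : ℝ) : ℂ) *
      ((u 2 ((⇑S)^[b q.1] x) : ℝ) : ℂ) * ((u 3 ((⇑S)^[b q.2] x) : ℝ) : ℂ) ∂μ =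
      ((∫ x, (u 0 ((⇑T)^[a q.1] x) * u 2 ((⇑S)^[b q.1] x)) *
        (u 1 ((⇑T)^[a q.2] x) * u 3 ((⇑S)^[b q.2] x)) ∂μ : ℝ) : ℂ) := by
    intro q
    rw [← integral_complex_ofReal]
    refine integral_congr_ae (Eventually.of_forall fun x => ?_)
    show _ = _
    push_cast
    ring
  simp_rw [h2]
  rw [← Complex.ofReal_sum, ← integral_finsetSum]
  · have h3 : ∀ x, Av T S a b (u 0) (u 2) N x * Av T S a b (u 1) (u 3) N x =
        ((N : ℝ) ^ 2)⁻¹ * ∑ q ∈ Finset.range N ×ˢ Finset.range N,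
          (u 0 ((⇑T)^[a q.1] x) * u 2 ((⇑S)^[b q.1] x)) *
            (u 1 ((⇑T)^[a q.2] x) * u 3 ((⇑S)^[b q.2] x)) := by
      intro x
      unfold Av
      rw [Finset.sum_product, mul_mul_mul_comm, Finset.sum_mul_sum, pow_two, mul_inv]
    simp_rw [h3]
    rw [integral_const_mul]
    push_cast
    rfl
  · intro q _
    exact bd_int (bd_mul (bd_mul ⟨(hu 0).1.comp (hTm _), fun x => (hu 0).2 _⟩
      ⟨(hu 2).1.comp (hSm _), fun x => (hu 2).2 _⟩) (bd_mul ⟨(hu 1).1.comp (hTm _),
        fun x => (hu 1).2 _⟩ ⟨(hu 3).1.comp (hSm _), fun x => (hu 3).2 _⟩))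

end

end Pool.Agent.Helper30.PJ
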